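import Pool.Agent.Helper98_PP.StmtsR2

/-!
# Squad PP, part R2, module SHF: shifting the automorphisms of a torus datum
-/

open scoped BigOperators

set_option linter.unusedSectionVars false

noncomputable section

namespace Pool.Agent.PP.H65

open Pool.Agent.Helper51_AWC Pool.Agent.Helper79_WRA

section lem

variable {Y : Type} [Group Y]

theorem mul_conj' (γ : MulAut Y) (n : Y) : γ * MulAut.conj n = MulAut.conj (γ n) * γ := by
  ext y
  simp only [MulAut.mul_apply, MulAut.conj_apply, map_mul, map_inv]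

theorem tw_apply (γ : MulAut Y) (n y : Y) : tw γ n y = γ (n * y * n⁻¹) := rfl

theorem tw_tw (α : MulAut Y) (a n : Y) : tw (tw α a) n = tw α (a * n) := by
  unfold tw
  rw [mul_assoc, ← map_mul]

/-- `[α ∘ inn(n), β ∘ inn(m)] = κ ∘ inn(c(n,m))` -/
theorem kap_tw (α β : MulAut Y) (n m : Y) :
    kap (tw α n) (tw β m) = tw (kap α β) (cc α β n m) := by
  have h1 : kap (tw α n) (tw β m) = MulAut.conj (α (n * β m * (β n)⁻¹)) *
      (α * β * α⁻¹ * (MulAut.conj m)⁻¹ * β⁻¹) := by
    have e1 : α * MulAut.conj n * (β * MulAut.conj m) * (MulAut.conj n)⁻¹ =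
        MulAut.conj (α (n * β m * (β n)⁻¹)) * (α * β) := by
      have e2 : MulAut.conj n * (β * MulAut.conj m) * (MulAut.conj n)⁻¹ =
          MulAut.conj (n * β m * (β n)⁻¹) * β := by
        have e3 : β * (MulAut.conj n)⁻¹ = (MulAut.conj (β n))⁻¹ * β := by
          rw [← map_inv, mul_conj', map_inv, map_inv]
        rw [mul_conj' β m, map_mul, map_mul, map_inv]
        calc MulAut.conj n * (MulAut.conj (β m) * β) * (MulAut.conj n)⁻¹ =
            MulAut.conj n * MulAut.conj (β m) * (β * (MulAut.conj n)⁻¹) := by group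
          _ = MulAut.conj n * MulAut.conj (β m) * (MulAut.conj (β n))⁻¹ * β := by
            rw [e3]; group
      calc α * MulAut.conj n * (β * MulAut.conj m) * (MulAut.conj n)⁻¹ =
          α * (MulAut.conj n * (β * MulAut.conj m) * (MulAut.conj n)⁻¹) := by group
        _ = α * MulAut.conj (n * β m * (β n)⁻¹) * β := by rw [e2]; group
        _ = MulAut.conj (α (n * β m * (β n)⁻¹)) * (α * β) := by rw [mul_conj']; group
    unfold kap tw
    calc α * MulAut.conj n * (β * MulAut.conj m) * (α * MulAut.conj n)⁻¹ *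
        (β * MulAut.conj m)⁻¹ =
        (α * MulAut.conj n * (β * MulAut.conj m) * (MulAut.conj n)⁻¹) *
          (α⁻¹ * (MulAut.conj m)⁻¹ * β⁻¹) := by group
      _ = _ := by rw [e1]; group
  have h2 : tw (kap α β) (cc α β n m) = MulAut.conj (α (n * β m * (β n)⁻¹)) *
      (kap α β * (MulAut.conj (β m))⁻¹) := by
    have h3 : kap α β * MulAut.conj ((kap α β)⁻¹ (α (n * β m * (β n)⁻¹))) =
        MulAut.conj (α (n * β m * (β n)⁻¹)) * kap α β := by
      rw [mul_conj', MulAut.apply_inv_self]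
    unfold tw cc
    rw [map_mul MulAut.conj, ← mul_assoc, h3, map_inv, mul_assoc]
  rw [h1, h2]
  congr 1
  have h3 : (MulAut.conj m)⁻¹ * β⁻¹ = β⁻¹ * (MulAut.conj (β m))⁻¹ := by
    have := congrArg (fun x => x⁻¹) (mul_conj' β m)
    simpa only [mul_inv_rev] using this
  unfold kap
  rw [mul_assoc, h3]
  group

/-- The cocycle identity. -/
theorem cc_coc (α β : MulAut Y) (a b n m : Y) :
    cc α β (a * n) (b * m) = cc α β a b * cc (tw α a) (tw β b) n m := by
  have h1 : ∀ z, (kap (tw α a) (tw β b))⁻¹ z =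
      (cc α β a b)⁻¹ * (kap α β)⁻¹ z * cc α β a b := by
    intro z
    rw [kap_tw]
    unfold tw
    rw [mul_inv_rev, MulAut.mul_apply, ← map_inv, MulAut.conj_apply, inv_inv]
  have h2 : cc (tw α a) (tw β b) n m = (kap (tw α a) (tw β b))⁻¹
      (tw α a (n * tw β b m * (tw β b n)⁻¹)) * (tw β b m)⁻¹ := rfl
  rw [h2, h1]
  simp only [tw_apply, cc, map_mul, map_inv]
  group

variable {F : Type} [Field F] [Finite Y]

theorem mulF_eq' [Fintype Y] (a b : Y → F) (x : Y) : mulF a b x = ∑ t, a t * b (t⁻¹ * x) := by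
  unfold mulF
  rw [finsum_eq_sum_of_fintype]

end lem

theorem shf : ShfStmt := by
  intro ℓ F _ hF Y _ _ f α β w wi hT a b
  have hfin := Fintype.ofFinite Y
  obtain ⟨c, hc⟩ : ∃ c, c = cc α β a b := ⟨_, rfl⟩
  rw [← hc]
  have hcl : ∀ x y, f (y * x * y⁻¹) = f x := hT.blk.1.1
  refine ⟨⟨fun y => wi (y * c⁻¹), hT.blk, ?_, ?_, ?_⟩, ?_⟩
  · intro y
    rw [tw_apply, hT.fa, hcl]
  · intro y
    rw [tw_apply, hT.fb, hcl]
  · have hu := hT.unt
    refine ⟨?_, ?_, ?_, ?_, ?_⟩
    · funext x
      rw [mulF_eq']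
      have h1 := congrFun hu.fw (c * x)
      rw [mulF_eq'] at h1
      rw [← h1]
      refine Fintype.sum_equiv (MulAut.conj c).toEquiv _ _ fun t => ?_
      show f t * w (c * (t⁻¹ * x)) = f (c * t * c⁻¹) * w ((c * t * c⁻¹)⁻¹ * (c * x))
      rw [hcl]
      congr 2
      group
    · funext x
      rw [mulF_eq']
      have h1 := congrFun hu.fwi (x * c⁻¹)
      rw [mulF_eq'] at h1
      rw [← h1]
      refine Finset.sum_congr rfl fun t _ => ?_
      rw [mul_assoc]
    · funext x
      rw [mulF_eq']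
      have h1 := congrFun hu.unit (c * x * c⁻¹)
      rw [mulF_eq', hcl] at h1
      rw [← h1]
      refine Fintype.sum_equiv (Equiv.mulLeft c) _ _ fun t => ?_
      show w (c * t) * wi (t⁻¹ * x * c⁻¹) = w (c * t) * wi ((c * t)⁻¹ * (c * x * c⁻¹))
      congr 2
      group
    · funext x
      rw [mulF_eq']
      have h1 := congrFun hu.unit' x
      rw [mulF_eq'] at h1
      rw [← h1]
      refine Fintype.sum_equiv (Equiv.mulRight c⁻¹) _ _ fun t => ?_
      show wi (t * c⁻¹) * w (c * (t⁻¹ * x)) = wi (t * c⁻¹) * w ((t * c⁻¹)⁻¹ * x)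
      congr 2
      group
    · intro n y
      rw [kap_tw, ← hc]
      have h1 := hu.comm n (c * y)
      rw [← h1]
      congr 1
      unfold tw
      rw [mul_inv_rev, MulAut.mul_apply, ← map_inv, MulAut.conj_apply, inv_inv]
      group
  · intro τ
    classical
    unfold DD
    symm
    rw [← finsum_comp_equiv (Equiv.mulLeft a)]
    refine finsum_congr fun n => ?_
    rw [← finsum_comp_equiv (Equiv.mulLeft b)]
    refine finsum_congr fun m => ?_
    show ∑ d ∈ (chainsOn (psubIn ℓ (⊤ : Subgroup Y)) ⊥).filter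
      (fun d => NormalChain d ∧ FixC (tw α (a * n)) d ∧ FixC (tw β (b * m)) d),
        (-1) ^ (d.card + 1) *
        tcon τ f (tw α (a * n)) (tw β (b * m)) (fun y => w (cc α β (a * n) (b * m) * y)) d = _
    rw [tw_tw, tw_tw]
    refine Finset.sum_congr rfl fun d _ => ?_
    congr 2
    funext y
    rw [cc_coc, ← hc, mul_assoc]

end Pool.Agent.PP.H65
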