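import Pool.Agent.Helper66_PP.StmtsLQ

/-!
# Squad PP, part LQ, module FIS: the good fields are the residue fields
-/

noncomputable section

namespace Pool.Agent.PP.H65

open Pool.Agent.PP Pool.Agent.Helper51_AWC Pool.Agent.Helper79_WRA

theorem good_alg (ℓ : ℕ) (F : Type) [Field F] [Fact ℓ.Prime] [CharP F ℓ] (hF : GoodF ℓ F) :
    letI : Algebra (ZMod ℓ) F := ZMod.algebra F ℓ
    IsAlgClosure (ZMod ℓ) F := by
  letI : Algebra (ZMod ℓ) F := ZMod.algebra F ℓ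
  refine ⟨hF.closed, ⟨fun x => ?_⟩⟩
  by_cases hx : x = 0
  · rw [hx]
    exact isAlgebraic_zero
  · obtain ⟨n, hn, hxn⟩ := hF.tors x hx
    have h : IsIntegral (ZMod ℓ) (x ^ n) := by
      rw [hxn]
      exact isIntegral_one
    exact (h.of_pow hn).isAlgebraic

theorem good_equiv (ℓ : ℕ) (F K : Type) [Field F] [Field K] (hF : GoodF ℓ F) (hK : GoodF ℓ K) :
    Nonempty (F ≃+* K) := by
  haveI : Fact ℓ.Prime := ⟨hF.prime⟩
  haveI := hF.char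
  haveI := hK.char
  letI : Algebra (ZMod ℓ) F := ZMod.algebra F ℓ
  letI : Algebra (ZMod ℓ) K := ZMod.algebra K ℓ
  haveI := good_alg ℓ F hF
  haveI := good_alg ℓ K hK
  exact ⟨(IsAlgClosure.equiv (ZMod ℓ) F K).toRingEquiv⟩

theorem not_unit (ℓ : ℕ) (hl : ℓ.Prime) : ¬ IsUnit (ℓ : integralClosure ℤ ℂ) := by
  intro h
  obtain ⟨a, ha⟩ := h.exists_right_inv
  have h1 : (ℓ : ℂ) * (a : ℂ) = 1 := by
    have h2 := congrArg (fun z : integralClosure ℤ ℂ => (z : ℂ)) ha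
    simpa using h2
  have hl0 : (ℓ : ℂ) ≠ 0 := Nat.cast_ne_zero.2 hl.ne_zero
  have h3 : (a : ℂ) = algebraMap ℚ ℂ ((ℓ : ℚ)⁻¹) := by
    rw [map_inv₀, map_natCast]
    exact eq_inv_of_mul_eq_one_right h1
  have h4 : IsIntegral ℤ (a : ℂ) := a.2
  rw [h3] at h4
  have h5 : IsIntegral ℤ ((ℓ : ℚ)⁻¹) :=
    (isIntegral_algebraMap_iff (algebraMap ℚ ℂ).injective).1 h4
  obtain ⟨m, hm⟩ := IsIntegrallyClosed.isIntegral_iff.1 h5
  have h6 : (ℓ : ℚ) * (m : ℚ) = 1 := by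
    have h7 : ((m : ℤ) : ℚ) = (ℓ : ℚ)⁻¹ := by
      rw [← hm]
      simp
    rw [h7]
    exact mul_inv_cancel₀ (Nat.cast_ne_zero.2 hl.ne_zero)
  have h8 : (ℓ : ℤ) * m = 1 := by exact_mod_cast h6
  have h9 : (ℓ : ℤ) ∣ 1 := ⟨m, h8.symm⟩
  have h10 : ℓ ∣ 1 := by exact_mod_cast h9
  exact hl.one_lt.ne' (Nat.dvd_one.1 h10)

theorem fis (hfld : FldStmt) : FisStmt := by
  intro ℓ F _ hF
  have hl := hF.prime
  have hne : Ideal.span {(ℓ : integralClosure ℤ ℂ)} ≠ ⊤ := by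
    intro h
    exact not_unit ℓ hl (Ideal.span_singleton_eq_top.1 h)
  obtain ⟨M, hM, hle⟩ := Ideal.exists_le_maximal _ hne
  have hmem : (ℓ : integralClosure ℤ ℂ) ∈ M := hle (Ideal.subset_span rfl)
  refine ⟨M, hM, hmem, ?_⟩
  have hG := hfld ℓ hl M hmem
  exact @good_equiv ℓ F (FF M) _ (Ideal.Quotient.field M) hF hG

end Pool.Agent.PP.H65
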