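import Pool.Agent.Helper18_PP.StmtsDZ
import Pool.Agent.Helper20_PP.Nls
import Pool.Agent.Helper94_PP.Nch

/-!
# Squad PP, part DZ, module SUP (DZ2)

Chains which meet `N`, and chains which are not good, do not contribute.
-/

open scoped BigOperators

set_option linter.unusedSectionVars false

noncomputable section

namespace Pool.Agent.PP.H65

open Pool.Agent.Helper51_AWC Pool.Agent.Helper79_WRA

section lem

variable {ℓ : ℕ} {F : Type} [Field F] {G : Type} [Group G] [Finite G]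

/-- The truncation argument: if `b` vanishes at the elements of `N` centralising the `ℓ`-group `R`,
then `e = e b` vanishes on the centraliser of `R`. -/
theorem trunc (hF : GoodF ℓ F) {N R : Subgroup G} {b e : G → F} (hb : IsCl b)
    (hbN : ∀ g, g ∉ N → b g = 0) (he : IsCl e) (heb : mulF e b = e) (hR : IsPGroup ℓ R)
    (h0 : ∀ n ∈ N, n ∈ Subgroup.centralizer (R : Set G) → b n = 0) {g : G}
    (hg : g ∈ Subgroup.centralizer (R : Set G)) : e g = 0 := by
  have hch := hF.char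
  have hfin := Fintype.ofFinite G
  classical
  have hV : ∀ v : F, ℓ • v = 0 := by
    intro v
    rw [nsmul_eq_mul, CharP.cast_eq_zero, zero_mul]
  have h1 : e g = ∑ t, e t * b (t⁻¹ * g) := by
    conv_lhs => rw [← heb]
    unfold mulF
    rw [finsum_eq_sum_of_fintype]
  rw [h1, H20.conj_sum hF.prime hV R hR (fun t => e t * b (t⁻¹ * g)) (fun r hr t => by
    show e (r * t * r⁻¹) * b ((r * t * r⁻¹)⁻¹ * g) = e t * b (t⁻¹ * g)
    have h3 : r * g = g * r := Subgroup.mem_centralizer_iff.1 hg r hr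
    have h4 : (r * t * r⁻¹)⁻¹ * g = r * (t⁻¹ * g) * r⁻¹ := by
      have h5 : r⁻¹ * g = g * r⁻¹ := by
        calc r⁻¹ * g = r⁻¹ * (g * r) * r⁻¹ := by group
          _ = r⁻¹ * (r * g) * r⁻¹ := by rw [h3]
          _ = g * r⁻¹ := by group
      calc (r * t * r⁻¹)⁻¹ * g = r * t⁻¹ * (r⁻¹ * g) := by group
        _ = r * t⁻¹ * (g * r⁻¹) := by rw [h5]
        _ = r * (t⁻¹ * g) * r⁻¹ := by group
    rw [he, h4, hb])]
  apply Finset.sum_eq_zero
  intro t _
  by_cases ht : t ∈ Subgroup.centralizer (R : Set G)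
  · rw [if_pos ht]
    have h6 : t⁻¹ * g ∈ Subgroup.centralizer (R : Set G) := mul_mem (inv_mem ht) hg
    by_cases h7 : t⁻¹ * g ∈ N
    · show e t * b (t⁻¹ * g) = 0
      rw [h0 _ h7 h6, mul_zero]
    · show e t * b (t⁻¹ * g) = 0
      rw [hbN _ h7, mul_zero]
  · rw [if_neg ht]

theorem ibr_ne_zero (hF : GoodF ℓ F) {H : Type} [Group H] [Finite H] {f : H → F}
    (hf : f ∈ IBr F H) : f ≠ 0 := by
  have h1 := (H20.ibf ℓ F hF H).2
  exact h1.ne_zero (⟨f, hf⟩ : IBr F H)

/-- If `e` vanishes on the centraliser of a normal `ℓ`-subgroup of `X`, the `ℓ`-number of `X`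
vanishes. -/
theorem kill (hnls : NlsStmt) (hF : GoodF ℓ F) {X R : Subgroup G} {e : G → F} (he : IsCl e)
    (hRX : R ≤ X) (hXN : X ≤ Subgroup.normalizer (R : Set G)) (hR : IsPGroup ℓ R)
    (h0 : ∀ g ∈ X, g ∈ Subgroup.centralizer (R : Set G) → e g = 0) : lnum X e = 0 := by
  unfold lnum
  rw [Set.ncard_eq_zero (Set.Finite.subset (H20.ibf ℓ F hF X).1 (fun f hf => hf.1))]
  rw [Set.eq_empty_iff_forall_notMem]
  rintro f ⟨hf, hfe⟩
  apply ibr_ne_zero hF hf
  obtain ⟨n, ρ, hρ, rfl⟩ := hf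
  have hnorm : (R.subgroupOf X).Normal := by
    constructor
    intro r hr g
    rw [Subgroup.mem_subgroupOf] at hr ⊢
    exact (Subgroup.mem_normalizer_iff.1 (hXN g.2) (r : G)).1 hr
  have hp : IsPGroup ℓ (R.subgroupOf X) := by
    intro r
    obtain ⟨k, hk⟩ := hR ⟨((r : X) : G), r.2⟩
    refine ⟨k, ?_⟩
    apply Subtype.ext
    apply Subtype.ext
    have := congrArg Subtype.val hk
    simpa using this
  have h1 := ((hnls ℓ F hF X (R.subgroupOf X) hnorm hp n ρ hρ).2 (fun t : X => e t)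
    (fun x y => he x y)).2
  have h2 : br (R.subgroupOf X) (fun t : X => e t) = 0 := by
    funext t
    simp only [br, Pi.zero_apply]
    split_ifs with ht
    · apply h0 _ t.2
      rw [Subgroup.mem_centralizer_iff] at ht ⊢
      intro r hr
      have := ht ⟨r, hRX hr⟩ (by
        show (⟨r, hRX hr⟩ : X) ∈ R.subgroupOf X
        rw [Subgroup.mem_subgroupOf]
        exact hr)
      exact congrArg Subtype.val this
    · rfl
  rw [h2, hfe] at h1
  rw [h1]
  funext x
  unfold actF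
  simp

/-- A block of defect zero vanishes at the elements centralised by a nontrivial `ℓ`-subgroup. -/
theorem dzb_zero (hF : GoodF ℓ F) {N R : Subgroup G} {b : G → F} (hNB : NB ℓ N b)
    (hRN : R ≤ N) (hR : IsPGroup ℓ R) (hR1 : R ≠ ⊥) {n : G} (hn : n ∈ N)
    (hnR : n ∈ Subgroup.centralizer (R : Set G)) : b n = 0 := by
  have : Fact ℓ.Prime := ⟨hF.prime⟩
  refine hNB.2.2.2.2.2 ⟨n, hn⟩ ?_
  obtain ⟨r, hr, hr1⟩ : ∃ r ∈ R, r ≠ 1 := by
    by_contra hc
    push Not at hc
    exact hR1 ((Subgroup.eq_bot_iff_forall _).2 hc)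
  obtain ⟨k, hk⟩ := IsPGroup.iff_orderOf.1 hR ⟨r, hr⟩
  rw [Subgroup.orderOf_mk] at hk
  have hk0 : k ≠ 0 := by
    intro h
    rw [h, pow_zero, orderOf_eq_one_iff] at hk
    exact hr1 hk
  have hmem : (⟨r, hRN hr⟩ : N) ∈ Subgroup.centralizer ({⟨n, hn⟩} : Set N) := by
    rw [Subgroup.mem_centralizer_iff]
    intro x hx
    rw [Set.mem_singleton_iff] at hx
    subst hx
    apply Subtype.ext
    exact (Subgroup.mem_centralizer_iff.1 hnR r hr).symm
  have h1 : orderOf (⟨⟨r, hRN hr⟩, hmem⟩ : Subgroup.centralizer ({⟨n, hn⟩} : Set N)) = ℓ ^ k := by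
    rw [Subgroup.orderOf_mk, Subgroup.orderOf_mk, hk]
  have h2 := orderOf_dvd_natCard
    (⟨⟨r, hRN hr⟩, hmem⟩ : Subgroup.centralizer ({⟨n, hn⟩} : Set N))
  rw [h1] at h2
  exact (dvd_pow_self ℓ hk0).trans h2

/-- An `ℓ`-group normalising a nontrivial `ℓ`-group centralises a nontrivial element of it. -/
theorem exists_cent (hℓ : ℓ.Prime) {E Q : Subgroup G} (hE : IsPGroup ℓ E) (hQ : IsPGroup ℓ Q)
    (hQ1 : Q ≠ ⊥) (hEQ : E ≤ Subgroup.normalizer (Q : Set G)) :
    Q ⊓ Subgroup.centralizer (E : Set G) ≠ ⊥ := by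
  have : Fact ℓ.Prime := ⟨hℓ⟩
  have hconj : ∀ r : E, ∀ t : Q, (r : G) * t * (r : G)⁻¹ ∈ Q := fun r t =>
    (Subgroup.mem_normalizer_iff.1 (hEQ r.2) (t : G)).1 t.2
  let _ : MulAction E Q :=
    { smul := fun r t => ⟨(r : G) * t * (r : G)⁻¹, hconj r t⟩
      one_smul := fun t => Subtype.ext (by
        show (1 : G) * t * (1 : G)⁻¹ = t
        rw [one_mul, inv_one, mul_one])
      mul_smul := fun r s t => Subtype.ext (by
        show ((r : G) * s) * t * ((r : G) * s)⁻¹ = r * (s * t * (s : G)⁻¹) * (r : G)⁻¹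
        group) }
  have hsm : ∀ (r : E) (t : Q), ((r • t : Q) : G) = r * t * (r : G)⁻¹ := fun _ _ => rfl
  have hdvd : ℓ ∣ Nat.card Q := by
    obtain ⟨k, hk⟩ := IsPGroup.iff_card.1 hQ
    rw [hk]
    apply dvd_pow_self
    intro h
    rw [h, pow_zero] at hk
    exact hQ1 ((Subgroup.card_eq_one).1 hk)
  obtain ⟨x, hx, hne⟩ := hE.exists_fixed_point_of_prime_dvd_card_of_fixed_point Q hdvd
    (a := (1 : Q)) (by
      intro r
      apply Subtype.ext
      rw [hsm]
      simp)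
  intro hbot
  apply hne
  have h1 : (x : G) ∈ Q ⊓ Subgroup.centralizer (E : Set G) := by
    refine Subgroup.mem_inf.2 ⟨x.2, ?_⟩
    rw [Subgroup.mem_centralizer_iff]
    intro r hr
    have h2 := congrArg Subtype.val (hx ⟨r, hr⟩)
    rw [hsm] at h2
    have h3 : r * (x : G) * r⁻¹ = x := h2
    calc r * (x : G) = r * (x : G) * r⁻¹ * r := by group
      _ = x * r := by rw [h3]
  rw [hbot, Subgroup.mem_bot] at h1
  exact Subtype.ext h1.symm

theorem norm_inf {A B : Subgroup G} {g : G} (hA : g ∈ Subgroup.normalizer (A : Set G))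
    (hB : g ∈ Subgroup.normalizer (B : Set G)) :
    g ∈ Subgroup.normalizer ((A ⊓ B : Subgroup G) : Set G) := by
  rw [Subgroup.mem_normalizer_iff] at hA hB ⊢
  intro h
  rw [Subgroup.mem_inf, Subgroup.mem_inf, hA, hB]

theorem norm_cent {A : Subgroup G} {g : G} (hA : g ∈ Subgroup.normalizer (A : Set G)) :
    g ∈ Subgroup.normalizer ((Subgroup.centralizer (A : Set G) : Subgroup G) : Set G) := by
  rw [Subgroup.mem_normalizer_iff]
  intro h
  exact (H20.cent_conj_iff hA).symm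

end lem

theorem sup (hnls : NlsStmt) : SupStmt := by
  intro ℓ F _ hF G _ _ N b e hNB he heb
  have : Fact ℓ.Prime := ⟨hF.prime⟩
  classical
  have hN := hNB.1
  have hbc := hNB.2.1
  have hbN := hNB.2.2.1
  -- part one
  have part1 : ∀ d ∈ chainsOn (psubIn ℓ (⊤ : Subgroup G)) ⊥, top d ⊓ N ≠ ⊥ →
      lnum (stab d) e = 0 := by
    intro d hd hdN
    obtain ⟨hds, hbot, hch⟩ := mem_chainsOn.1 hd
    have hpg : ∀ D ∈ d, IsPGroup ℓ D := fun D hD => (mem_psubIn.1 (hds hD)).2
    obtain ⟨hT, hmax⟩ := H94.top_mem hch ⟨⊥, hbot⟩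
    -- the smallest member meeting `N`
    obtain ⟨D, hD, hDmin⟩ := exists_least (d := d.filter (fun D => D ⊓ N ≠ ⊥))
      (hch.mono (fun y hy => Finset.mem_of_mem_filter y hy))
      ⟨top d, Finset.mem_filter.2 ⟨hT, hdN⟩⟩
    rw [Finset.mem_filter] at hD
    -- the largest member not meeting `N`
    obtain ⟨E, hE, hEmax⟩ := exists_greatest (d := d.filter (fun D => D ⊓ N = ⊥))
      (hch.mono (fun y hy => Finset.mem_of_mem_filter y hy))
      ⟨⊥, Finset.mem_filter.2 ⟨hbot, bot_inf_eq _⟩⟩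
    rw [Finset.mem_filter] at hE
    have hED : E ≤ D := by
      rcases chain_total hch hE.1 hD.1 with h | h
      · exact h
      · exact absurd (le_bot_iff.1 (hE.2 ▸ inf_le_inf_right N h)) hD.2
    have hnD : ∀ g ∈ stab d, ∀ D' ∈ d, g ∈ Subgroup.normalizer (D' : Set G) := fun g hg =>
      H94.mem_stab'.1 hg
    have hNn : ∀ g : G, g ∈ Subgroup.normalizer (N : Set G) := fun g => by
      rw [Subgroup.normalizer_eq_top_iff.2 hN]; trivial
    obtain ⟨R, hR⟩ : ∃ R : Subgroup G, R = (D ⊓ N) ⊓ Subgroup.centralizer (E : Set G) := ⟨_, rfl⟩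
    have hDNp : IsPGroup ℓ (D ⊓ N : Subgroup G) := (hpg D hD.1).to_le inf_le_left
    have hR1 : R ≠ ⊥ := by
      rw [hR]
      refine exists_cent hF.prime (hpg E hE.1) hDNp hD.2 ?_
      intro x hx
      exact norm_inf (Subgroup.le_normalizer (hED hx)) (hNn x)
    have hRp : IsPGroup ℓ R := by rw [hR]; exact hDNp.to_le inf_le_left
    have hRN : R ≤ N := by rw [hR]; exact inf_le_left.trans inf_le_right
    have hRX : R ≤ stab d := by
      intro x hx
      rw [hR] at hx
      rw [H94.mem_stab']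
      intro D' hD'
      by_cases h : D' ⊓ N = ⊥
      · have h1 := hEmax D' (Finset.mem_filter.2 ⟨hD', h⟩)
        have h2 : x ∈ Subgroup.centralizer (D' : Set G) :=
          Subgroup.centralizer_le (fun y hy => h1 hy) hx.2
        exact Subgroup.centralizer_le_normalizer _ h2
      · have h1 := hDmin D' (Finset.mem_filter.2 ⟨hD', h⟩)
        exact Subgroup.le_normalizer (h1 hx.1.1)
    have hXR : stab d ≤ Subgroup.normalizer (R : Set G) := by
      intro g hg
      rw [hR]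
      exact norm_inf (norm_inf (hnD g hg D hD.1) (hNn g)) (norm_cent (hnD g hg E hE.1))
    refine kill hnls hF he.1 hRX hXR hRp ?_
    intro g _ hg
    exact trunc hF hbc hbN he.1 heb hRp (fun n hn hnR => dzb_zero hF hNB hRN hRp hR1 hn hnR) hg
  have part2 : ∀ P : Subgroup G, IsPGroup ℓ P → P ⊓ N = ⊥ → ¬ Good ℓ N b P →
      ∀ g ∈ Subgroup.centralizer (P : Set G), e g = 0 := by
    intro P hP hPN hgood g hg
    refine trunc hF hbc hbN he.1 heb hP (fun n hn hnP => ?_) hg
    by_contra hne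
    exact hgood ⟨hP, hPN, n, hn, hnP, hne⟩
  refine ⟨part1, part2, ?_⟩
  intro d hd hnc hgood
  by_cases hdN : top d ⊓ N = ⊥
  · obtain ⟨hds, hbot, hch⟩ := mem_chainsOn.1 hd
    obtain ⟨hT, hmax⟩ := H94.top_mem hch ⟨⊥, hbot⟩
    have hp : IsPGroup ℓ (top d) := (mem_psubIn.1 (hds hT)).2
    refine kill hnls hF he.1 (R := top d) ?_ ?_ hp ?_
    · intro x hx
      rw [H94.mem_stab']
      exact fun D hD => hnc D hD hx
    · intro g hg
      exact H94.mem_stab'.1 hg _ hT
    · intro g _ hg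
      exact part2 (top d) hp hdN hgood g hg
  · exact part1 d hd hdN

end Pool.Agent.PP.H65
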